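import Pool.Agent.helper84.LP.SpecG

/-!
# Project LP, row LTV: the trivial leaf inequality
-/

open scoped MatrixGroups ContDiff Topology UpperHalfPlane ComplexConjugate
open UpperHalfPlane MeasureTheory Filter Set

set_option autoImplicit false

namespace Pool.Agent.LP

open Pool.Agent.RS
open Pool.Agent.MS (bq BB BA SF pf)
open Pool.Agent.HV (FW)
open Pool.Agent.EN (XG MG mkX mkM fl pr)
open Pool.Agent.ER (Low LowJ)

noncomputable section

/-- the number of the coarse digits -/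
theorem LTV_card (C1 a η : ℝ) (G m : ℕ) (D : Finset ℤ) (hC1 : 1 ≤ C1) (h : AR C1 a η G m D) :
    (D.card : ℝ) ≤ (C1 + 1) * C1 * Real.exp ((a + η) * (G * m)) := by
  obtain ⟨h1, h2⟩ := h
  set E : ℝ := Real.exp (G * m) with hE
  have hE0 : 0 < E := Real.exp_pos _
  set K : ℕ := ⌊C1⌋₊ + 1 with hK
  have hKle : (K : ℝ) ≤ C1 + 1 := by
    rw [hK]
    push_cast
    have := Nat.floor_le (by linarith : (0 : ℝ) ≤ C1)
    linarith
  have hsub : D ⊆ (Finset.range K).biUnion fun k => D.filter fun d : ℤ => |(d : ℝ) - (-C1 * E + (2 * k + 1) * E)| ≤ Real.exp (G * m) := by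
    intro d hd
    have h3 := abs_le.1 (h1 d hd)
    set t : ℝ := ((d : ℝ) + C1 * E) / (2 * E) with ht
    have ht0 : 0 ≤ t := by
      rw [ht]
      apply div_nonneg _ (by positivity)
      linarith [h3.1]
    have ht1 : t ≤ C1 := by
      rw [ht, div_le_iff₀ (by positivity)]
      linarith [h3.2]
    have hk1 := Nat.floor_le ht0
    have hk2 := Nat.lt_floor_add_one t
    have hteq : t * (2 * E) = (d : ℝ) + C1 * E := by
      rw [ht]
      field_simp
    refine Finset.mem_biUnion.2 ⟨⌊t⌋₊, Finset.mem_range.2 ?_, Finset.mem_filter.2 ⟨hd, ?_⟩⟩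
    · rw [hK]
      exact Nat.lt_succ_of_le (Nat.floor_le_floor ht1)
    · rw [← hE, abs_le]
      constructor
      · nlinarith
      · nlinarith
  have h4 : (D.card : ℝ) ≤ ∑ k ∈ Finset.range K, ((D.filter fun d : ℤ => |(d : ℝ) - (-C1 * E + (2 * k + 1) * E)| ≤ Real.exp (G * m)).card : ℝ) := by
    exact_mod_cast (Finset.card_le_card hsub).trans Finset.card_biUnion_le
  have h5 : ∀ k ∈ Finset.range K, ((D.filter fun d : ℤ => |(d : ℝ) - (-C1 * E + (2 * k + 1) * E)| ≤ Real.exp (G * m)).card : ℝ) ≤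
      C1 * Real.exp ((a + η) * (G * m)) := fun k _ => h2 G le_rfl _
  refine (h4.trans (Finset.sum_le_sum h5)).trans ?_
  rw [Finset.sum_const, Finset.card_range, nsmul_eq_mul]
  have h6 : 0 ≤ C1 * Real.exp ((a + η) * (G * m)) := by positivity
  calc (K : ℝ) * (C1 * Real.exp ((a + η) * (G * m))) ≤ (C1 + 1) * (C1 * Real.exp ((a + η) * (G * m))) := mul_le_mul_of_nonneg_right hKle h6
    _ = _ := by ring

theorem LTV_ee (s : ℝ) : ‖ee s‖ = 1 := by
  unfold ee
  exact Complex.norm_exp_ofReal_mul_I s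

theorem LTV_proof (hSBA : SBA_stmt) (hYVO : IR.YVO_stmt) : LTV_stmt := by
  intro Γ hΓ C1 a η h G hC1 ha hη hG
  obtain ⟨C0, hC0, hS⟩ := hSBA
  obtain ⟨Cy, hCy, hY⟩ := hYVO Γ hΓ
  refine ⟨C0 * (2 * (C1 + 1) * C1 * Cy + 1), ?_, ?_⟩
  · have h1 : 0 ≤ 2 * (C1 + 1) * C1 * Cy := by positivity
    nlinarith
  intro b m Au hb hb1 hAu g Y J c hYm hY1 hYF hAR
  set p : ℝ := (G : ℝ) * m with hp
  have hp0 : 0 ≤ p := by positivity
  have hN1 : Real.exp p ≤ (nG G m : ℝ) := Nat.le_ceil _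
  have hE1 : 1 ≤ Real.exp p := Real.one_le_exp hp0
  have hN2 : (nG G m : ℝ) ≤ 2 * Real.exp p := by
    have := Nat.ceil_lt_add_one (Real.exp_pos p).le
    have h2 : (nG G m : ℝ) < Real.exp p + 1 := this
    linarith
  have hN0 : (0 : ℝ) < nG G m := lt_of_lt_of_le (Real.exp_pos p) hN1
  have hN3 : 1 ≤ nG G m := by
    have : (1 : ℝ) ≤ nG G m := hE1.trans hN1
    exact_mod_cast this
  have hcard := LTV_card C1 a η G m (DJ G m J) hC1 hAR
  set Q : ℝ := nG G m * ((DJ G m J).card * (Cy * Au.card * Real.exp (-(p + p)))) with hQ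
  have hQ0 : 0 ≤ Q := by positivity
  have key := hS (nG G m) Y J Q hN3 hYm hY1 hQ0 (fun k b' hk => ?_) c
  · refine key.trans ?_
    have hQle : Q ≤ (2 * (C1 + 1) * C1 * Cy + 1) * Real.exp ((a + h + 2 * η - 1) * (G * m)) := by
      have e1 : Q ≤ 2 * Real.exp p * (((C1 + 1) * C1 * Real.exp ((a + η) * p)) * (Cy * Real.exp ((h + η) * p) * Real.exp (-(p + p)))) := by
        rw [hQ]
        gcongr
      have e2 : 2 * Real.exp p * (((C1 + 1) * C1 * Real.exp ((a + η) * p)) * (Cy * Real.exp ((h + η) * p) * Real.exp (-(p + p)))) =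
          2 * (C1 + 1) * C1 * Cy * Real.exp ((a + h + 2 * η - 1) * p) := by
        have e3 : Real.exp ((a + h + 2 * η - 1) * p) = Real.exp p * Real.exp ((a + η) * p) * Real.exp ((h + η) * p) * Real.exp (-(p + p)) := by
          rw [← Real.exp_add, ← Real.exp_add, ← Real.exp_add]
          congr 1
          ring
        rw [e3]
        ring
      rw [e2] at e1
      have e4 : 0 < Real.exp ((a + h + 2 * η - 1) * p) := Real.exp_pos _
      linarith
    have hS0 : 0 ≤ ∑ j ∈ J, ‖c j‖ ^ 2 := Finset.sum_nonneg fun j _ => sq_nonneg _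
    calc C0 * Q * ∑ j ∈ J, ‖c j‖ ^ 2 ≤ C0 * ((2 * (C1 + 1) * C1 * Cy + 1) * Real.exp ((a + h + 2 * η - 1) * (G * m))) * ∑ j ∈ J, ‖c j‖ ^ 2 := by
          gcongr
      _ = _ := by ring
  · show ∫ v in Y ∩ Icc ((k : ℝ) / nG G m) (((k : ℝ) + 1) / nG G m), ‖∑ d ∈ DJ G m J, b' d * ee (Real.pi * nG G m * d * v / 2)‖ ^ 2 ≤
      Q / nG G m * ∑ d ∈ DJ G m J, ‖b' d‖ ^ 2
    set S : ℝ := ∑ d ∈ DJ G m J, ‖b' d‖ ^ 2 with hSd
    have hS0 : 0 ≤ S := Finset.sum_nonneg fun j _ => sq_nonneg _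
    have hpt : ∀ v ∈ Y ∩ Icc ((k : ℝ) / nG G m) (((k : ℝ) + 1) / nG G m),
        ‖‖∑ d ∈ DJ G m J, b' d * ee (Real.pi * nG G m * d * v / 2)‖ ^ 2‖ ≤ (DJ G m J).card * S := by
      intro v _
      rw [Real.norm_eq_abs, abs_of_nonneg (sq_nonneg _)]
      have i1 : ‖∑ d ∈ DJ G m J, b' d * ee (Real.pi * nG G m * d * v / 2)‖ ≤ ∑ d ∈ DJ G m J, ‖b' d‖ := by
        refine (norm_sum_le _ _).trans (le_of_eq ?_)
        refine Finset.sum_congr rfl fun d _ => ?_
        rw [norm_mul, LTV_ee, mul_one]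
      calc ‖∑ d ∈ DJ G m J, b' d * ee (Real.pi * nG G m * d * v / 2)‖ ^ 2 ≤ (∑ d ∈ DJ G m J, ‖b' d‖) ^ 2 := by
            gcongr
        _ ≤ _ := sq_sum_le_card_mul_sum_sq
    have hfin : volume (Y ∩ Icc ((k : ℝ) / nG G m) (((k : ℝ) + 1) / nG G m)) < ⊤ :=
      lt_of_le_of_lt (measure_mono inter_subset_right) (by rw [Real.volume_Icc]; exact ENNReal.ofReal_lt_top)
    have h5 := norm_setIntegral_le_of_norm_le_const hfin hpt
    have h6 : volume.real (Y ∩ Icc ((k : ℝ) / nG G m) (((k : ℝ) + 1) / nG G m)) ≤ Cy * Au.card * Real.exp (-(p + p)) := by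
      refine le_trans ?_ (hY b p p ((k : ℝ) / nG G m) Au g hb hb1 hp0)
      refine measureReal_mono (fun v hv => ⟨?_, hYF v hv.1⟩) ?_
      · have q1 := hv.2.1
        have q2 := hv.2.2
        have q3 : ((k : ℝ) + 1) / nG G m = (k : ℝ) / nG G m + 1 / nG G m := by ring
        rw [q3] at q2
        have q4 : 1 / (nG G m : ℝ) ≤ Real.exp (-p) := by
          rw [Real.exp_neg, one_div]
          exact inv_anti₀ (Real.exp_pos p) hN1
        have q5 := Real.exp_pos (-p)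
        rw [abs_le]
        constructor <;> linarith
      · refine (lt_of_le_of_lt (measure_mono (t := Icc ((k : ℝ) / nG G m - 4 * Real.exp (-p)) ((k : ℝ) / nG G m + 4 * Real.exp (-p))) ?_) ?_).ne
        · intro v hv
          have := abs_le.1 hv.1
          exact ⟨by linarith [this.1], by linarith [this.2]⟩
        · rw [Real.volume_Icc]
          exact ENNReal.ofReal_lt_top
    calc ∫ v in Y ∩ Icc ((k : ℝ) / nG G m) (((k : ℝ) + 1) / nG G m), ‖∑ d ∈ DJ G m J, b' d * ee (Real.pi * nG G m * d * v / 2)‖ ^ 2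
        ≤ ‖∫ v in Y ∩ Icc ((k : ℝ) / nG G m) (((k : ℝ) + 1) / nG G m), ‖∑ d ∈ DJ G m J, b' d * ee (Real.pi * nG G m * d * v / 2)‖ ^ 2‖ := Real.le_norm_self _
      _ ≤ (DJ G m J).card * S * volume.real (Y ∩ Icc ((k : ℝ) / nG G m) (((k : ℝ) + 1) / nG G m)) := h5
      _ ≤ (DJ G m J).card * S * (Cy * Au.card * Real.exp (-(p + p))) := by gcongr
      _ = _ := by
        rw [hQ]
        field_simp

end

end Pool.Agent.LP
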