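import Mathlib
import Pool.Agent.helper84.LP.SpecP

/-!
# Project LP, row NEA: frequencies in an interval of length `H`, small density at the scale `1/H`
-/

open MeasureTheory Set

set_option autoImplicit false

namespace Pool.Agent.LP

noncomputable section

theorem NEA_norm (s : ℝ) : ‖ee s‖ = 1 := by
  unfold ee
  exact Complex.norm_exp_ofReal_mul_I s

theorem NEA_add (s t : ℝ) : ee (s + t) = ee s * ee t := by
  unfold ee
  rw [← Complex.exp_add]
  push_cast
  ring_nf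

theorem NEA_conj (s : ℝ) : (starRingEnd ℂ) (ee s) = ee (-s) := by
  unfold ee
  rw [← Complex.exp_conj, map_mul, Complex.conj_ofReal, Complex.conj_I]
  push_cast
  ring_nf

theorem NEA_cont : Continuous ee := by
  unfold ee
  fun_prop

theorem NEA_deriv (x v : ℝ) : HasDerivAt (fun v : ℝ => ee (x * v)) ((x : ℂ) * Complex.I * ee (x * v)) v := by
  unfold ee
  have h1 : HasDerivAt (fun v : ℝ => ((x * v : ℝ) : ℂ) * Complex.I) ((x : ℂ) * Complex.I) v := by
    have h2 : HasDerivAt (fun v : ℝ => x * v) x v := by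
      simpa using (hasDerivAt_id v).const_mul x
    exact h2.ofReal_comp.mul_const Complex.I
  have h3 := h1.cexp
  rw [mul_comm] at h3
  exact h3

theorem NEA_per (lam : ℝ) (hlam : 0 < lam) (k : ℤ) (a : ℝ) :
    ∫ v in a..(a + 12 * Real.pi / lam), ee (lam * k * v) = if k = 0 then ((12 * Real.pi / lam : ℝ) : ℂ) else 0 := by
  split_ifs with h
  · subst h
    simp [ee]
  · have hk : ((k : ℤ) : ℝ) ≠ 0 := Int.cast_ne_zero.2 h
    have hc : ((lam * k : ℝ) : ℂ) * Complex.I ≠ 0 :=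
      mul_ne_zero (Complex.ofReal_ne_zero.2 (mul_ne_zero hlam.ne' hk)) Complex.I_ne_zero
    have h1 : (fun v : ℝ => ee (lam * k * v)) = fun v : ℝ => Complex.exp (((lam * k : ℝ) : ℂ) * Complex.I * v) := by
      funext v
      unfold ee
      congr 1
      push_cast
      ring
    rw [h1, integral_exp_mul_complex hc]
    have h2 : Complex.exp (((lam * k : ℝ) : ℂ) * Complex.I * ((a + 12 * Real.pi / lam : ℝ) : ℂ)) =
        Complex.exp (((lam * k : ℝ) : ℂ) * Complex.I * (a : ℂ)) := by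
      have hl : (lam : ℂ) ≠ 0 := Complex.ofReal_ne_zero.2 hlam.ne'
      have h3 : ((lam * k : ℝ) : ℂ) * Complex.I * ((a + 12 * Real.pi / lam : ℝ) : ℂ) =
          ((lam * k : ℝ) : ℂ) * Complex.I * (a : ℂ) + ((6 * k : ℤ) : ℂ) * (2 * Real.pi * Complex.I) := by
        push_cast
        field_simp
        ring
      rw [h3, Complex.exp_add, Complex.exp_int_mul_two_pi_mul_I, mul_one]
    rw [h2, sub_self, zero_div]

theorem NEA_L2 (lam : ℝ) (h1 : 1 ≤ lam) (h4 : lam ≤ 4) (D : Finset ℤ) (r : ℤ) (c : ℤ → ℂ) :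
    ∫ v in (-4 : ℝ)..4, ‖∑ d ∈ D, c d * ee (lam * ((d : ℝ) - r) * v)‖ ^ 2 ≤ 38 * ∑ d ∈ D, ‖c d‖ ^ 2 := by
  have hlam : 0 < lam := by linarith
  set G : ℝ → ℂ := fun v => ∑ d ∈ D, c d * ee (lam * ((d : ℝ) - r) * v) with hG
  have hGc : Continuous G := by
    rw [hG]
    exact continuous_finset_sum _ fun d _ => continuous_const.mul (NEA_cont.comp (by fun_prop))
  have hpi := Real.pi_gt_three
  have hpi2 : Real.pi < 3.15 := Real.pi_lt_d2
  have hP : 9 ≤ 12 * Real.pi / lam := by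
    rw [le_div_iff₀ hlam]
    nlinarith
  have hP2 : 12 * Real.pi / lam ≤ 38 := by
    rw [div_le_iff₀ hlam]
    nlinarith
  have e1 : ∫ v in (-4 : ℝ)..4, ‖G v‖ ^ 2 ≤ ∫ v in (-4 : ℝ)..(-4 + 12 * Real.pi / lam), ‖G v‖ ^ 2 := by
    apply intervalIntegral.integral_mono_interval le_rfl (by norm_num) (by linarith)
    · exact Filter.Eventually.of_forall fun v => sq_nonneg _
    · exact (hGc.norm.pow 2).intervalIntegrable _ _
  have e2 : ((∫ v in (-4 : ℝ)..(-4 + 12 * Real.pi / lam), ‖G v‖ ^ 2 : ℝ) : ℂ) = ((12 * Real.pi / lam * ∑ d ∈ D, ‖c d‖ ^ 2 : ℝ) : ℂ) := by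
    rw [← intervalIntegral.integral_ofReal]
    have e3 : ∀ v : ℝ, ((‖G v‖ ^ 2 : ℝ) : ℂ) = ∑ d ∈ D, ∑ d' ∈ D, (c d * (starRingEnd ℂ) (c d')) * ee (lam * ((d - d' : ℤ) : ℝ) * v) := by
      intro v
      rw [Complex.ofReal_pow, ← Complex.mul_conj', hG]
      simp only
      rw [map_sum, Finset.sum_mul_sum]
      refine Finset.sum_congr rfl fun d _ => Finset.sum_congr rfl fun d' _ => ?_
      rw [map_mul, NEA_conj]
      have e4 : ee (lam * ((d - d' : ℤ) : ℝ) * v) = ee (lam * ((d : ℝ) - r) * v) * ee (-(lam * ((d' : ℝ) - r) * v)) := by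
        rw [← NEA_add]
        congr 1
        push_cast
        ring
      rw [e4]
      ring
    simp_rw [e3]
    rw [intervalIntegral.integral_finset_sum]
    swap
    · intro d _
      exact (continuous_finset_sum _ fun d' _ => continuous_const.mul (NEA_cont.comp (by fun_prop))).intervalIntegrable _ _
    have e5 : ∀ d ∈ D, ∫ v in (-4 : ℝ)..(-4 + 12 * Real.pi / lam), ∑ d' ∈ D, (c d * (starRingEnd ℂ) (c d')) * ee (lam * ((d - d' : ℤ) : ℝ) * v) =
        ((12 * Real.pi / lam : ℝ) : ℂ) * ((‖c d‖ ^ 2 : ℝ) : ℂ) := by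
      intro d hd
      rw [intervalIntegral.integral_finset_sum]
      swap
      · intro d' _
        exact (continuous_const.mul (NEA_cont.comp (by fun_prop))).intervalIntegrable _ _
      rw [Finset.sum_eq_single d]
      · rw [intervalIntegral.integral_const_mul, NEA_per lam hlam, if_pos (sub_self d), Complex.ofReal_pow, ← Complex.mul_conj']
        ring
      · intro d' _ hne
        rw [intervalIntegral.integral_const_mul, NEA_per lam hlam, if_neg (sub_ne_zero.2 hne.symm), mul_zero]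
      · intro h
        exact absurd hd h
    rw [Finset.sum_congr rfl e5, ← Finset.mul_sum]
    push_cast
    rfl
  have e6 := Complex.ofReal_injective e2
  rw [e6] at e1
  refine e1.trans ?_
  exact mul_le_mul_of_nonneg_right hP2 (Finset.sum_nonneg fun d _ => sq_nonneg _)

theorem NEA_sob (φ φ' ψ : ℝ → ℝ) (hd : ∀ v, HasDerivAt φ (φ' v) v) (hc : Continuous φ') (hψ : Continuous ψ) (hle : ∀ v, |φ' v| ≤ ψ v)
    (a b : ℝ) (hab : a < b) (v : ℝ) (hv : v ∈ Icc a b) :
    φ v * (b - a) ≤ (∫ w in a..b, φ w) + (b - a) * ∫ w in a..b, ψ w := by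
  have hψ0 : ∀ v, 0 ≤ ψ v := fun v => (abs_nonneg _).trans (hle v)
  have hφc : Continuous φ := continuous_iff_continuousAt.2 fun v => (hd v).continuousAt
  have h1 : ∀ w ∈ Icc a b, φ v ≤ φ w + ∫ s in a..b, ψ s := by
    intro w hw
    rcases le_total w v with hwv | hwv
    · have h2 : ∫ s in w..v, φ' s = φ v - φ w :=
        intervalIntegral.integral_eq_sub_of_hasDerivAt (fun x _ => hd x) (hc.intervalIntegrable _ _)
      have h3 : ∫ s in w..v, φ' s ≤ ∫ s in w..v, ψ s :=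
        intervalIntegral.integral_mono_on hwv (hc.intervalIntegrable _ _) (hψ.intervalIntegrable _ _) fun s _ => (le_abs_self _).trans (hle s)
      have h4 : ∫ s in w..v, ψ s ≤ ∫ s in a..b, ψ s :=
        intervalIntegral.integral_mono_interval hw.1 hwv hv.2 (Filter.Eventually.of_forall fun s => hψ0 s) (hψ.intervalIntegrable _ _)
      linarith
    · have h2 : ∫ s in v..w, φ' s = φ w - φ v :=
        intervalIntegral.integral_eq_sub_of_hasDerivAt (fun x _ => hd x) (hc.intervalIntegrable _ _)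
      have h3 : -∫ s in v..w, φ' s ≤ ∫ s in v..w, ψ s := by
        rw [← intervalIntegral.integral_neg]
        exact intervalIntegral.integral_mono_on hwv (hc.neg.intervalIntegrable _ _) (hψ.intervalIntegrable _ _) fun s _ => (neg_le_abs _).trans (hle s)
      have h4 : ∫ s in v..w, ψ s ≤ ∫ s in a..b, ψ s :=
        intervalIntegral.integral_mono_interval hv.1 hwv hw.2 (Filter.Eventually.of_forall fun s => hψ0 s) (hψ.intervalIntegrable _ _)
      linarith
  have h5 : ∫ _ in a..b, φ v ≤ ∫ w in a..b, (φ w + ∫ s in a..b, ψ s) :=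
    intervalIntegral.integral_mono_on hab.le (continuous_const.intervalIntegrable _ _) ((hφc.add continuous_const).intervalIntegrable _ _) h1
  rw [intervalIntegral.integral_const, intervalIntegral.integral_add (hφc.intervalIntegrable _ _) (continuous_const.intervalIntegrable _ _),
    intervalIntegral.integral_const, smul_eq_mul, smul_eq_mul] at h5
  linarith

/-- the sum over the intervals of length `1/H` -/
theorem NEA_main (H : ℕ) (hH : 1 ≤ H) (ϑ : ℝ) (hϑ : 0 ≤ ϑ) (V : Set ℝ) (hV : MeasurableSet V) (hV4 : V ⊆ Icc (-4 : ℝ) 4)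
    (hd : ∀ y : ℝ, volume.real (V ∩ Icc y (y + 1 / H)) ≤ ϑ / H) (φ φ' ψ : ℝ → ℝ) (hφ : ∀ v, HasDerivAt φ (φ' v) v) (hc : Continuous φ')
    (hψ : Continuous ψ) (hle : ∀ v, |φ' v| ≤ ψ v) (hφ0 : ∀ v, 0 ≤ φ v) :
    ∫ v in V, φ v ≤ ϑ * ((∫ v in (-4 : ℝ)..4, φ v) + 1 / H * ∫ v in (-4 : ℝ)..4, ψ v) := by
  have hH0 : (0 : ℝ) < H := by exact_mod_cast (by omega : 0 < H)
  have hψ0 : ∀ v, 0 ≤ ψ v := fun v => (abs_nonneg _).trans (hle v)
  have hφc : Continuous φ := continuous_iff_continuousAt.2 fun v => (hφ v).continuousAt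
  set a : ℕ → ℝ := fun k => -4 + k / H with ha
  have ha1 : ∀ k, a (k + 1) = a k + 1 / H := by
    intro k
    simp only [ha]
    push_cast
    ring
  have ha2 : ∀ k, a k < a (k + 1) := by
    intro k
    rw [ha1]
    have : 0 < 1 / (H : ℝ) := by positivity
    linarith
  have ha0 : a 0 = -4 := by simp [ha]
  have haN : a (8 * H) = 4 := by
    simp only [ha]
    push_cast
    field_simp
    norm_num
  have e1 : ∫ v in V, φ v = ∫ v in (-4 : ℝ)..4, V.indicator φ v := by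
    rw [intervalIntegral.integral_of_le (by norm_num), ← integral_Icc_eq_integral_Ioc, ← integral_indicator hV]
    symm
    refine setIntegral_eq_integral_of_forall_compl_eq_zero fun x hx => ?_
    exact indicator_of_notMem (fun h => hx (hV4 h)) _
  have hii : ∀ x y : ℝ, IntervalIntegrable (V.indicator φ) volume x y := by
    intro x y
    have h := hφc.intervalIntegrable (μ := volume) x y
    exact ⟨h.1.indicator hV, h.2.indicator hV⟩
  have e2 : ∫ v in (-4 : ℝ)..4, V.indicator φ v = ∑ k ∈ Finset.range (8 * H), ∫ v in (a k)..(a (k + 1)), V.indicator φ v := by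
    rw [intervalIntegral.sum_integral_adjacent_intervals fun k _ => hii _ _, ha0, haN]
  have e3 : ∀ k ∈ Finset.range (8 * H), ∫ v in (a k)..(a (k + 1)), V.indicator φ v ≤
      ϑ * ((∫ v in (a k)..(a (k + 1)), φ v) + 1 / H * ∫ v in (a k)..(a (k + 1)), ψ v) := by
    intro k _
    rw [intervalIntegral.integral_of_le (ha2 k).le, setIntegral_indicator hV]
    set M : ℝ := H * (∫ v in (a k)..(a (k + 1)), φ v) + ∫ v in (a k)..(a (k + 1)), ψ v with hM
    have h1 : ∀ v ∈ Ioc (a k) (a (k + 1)) ∩ V, ‖φ v‖ ≤ M := by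
      intro v hv
      rw [Real.norm_eq_abs, abs_of_nonneg (hφ0 v)]
      have h2 := NEA_sob φ φ' ψ hφ hc hψ hle (a k) (a (k + 1)) (ha2 k) v ⟨hv.1.1.le, hv.1.2⟩
      have h3 : a (k + 1) - a k = 1 / H := by rw [ha1]; ring
      rw [h3] at h2
      rw [hM]
      have h4 : φ v = H * (φ v * (1 / H)) := by field_simp
      rw [h4]
      calc (H : ℝ) * (φ v * (1 / H)) ≤ H * ((∫ w in (a k)..(a (k + 1)), φ w) + 1 / H * ∫ w in (a k)..(a (k + 1)), ψ w) :=
            mul_le_mul_of_nonneg_left h2 hH0.le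
        _ = _ := by field_simp
    have hfin : volume (Ioc (a k) (a (k + 1)) ∩ V) < ⊤ := lt_of_le_of_lt (measure_mono inter_subset_left) (by rw [Real.volume_Ioc]; exact ENNReal.ofReal_lt_top)
    have h5 := norm_setIntegral_le_of_norm_le_const hfin h1
    have hM0 : 0 ≤ M := by
      rw [hM]
      have i1 : 0 ≤ ∫ v in (a k)..(a (k + 1)), φ v := intervalIntegral.integral_nonneg (ha2 k).le fun v _ => hφ0 v
      have i2 : 0 ≤ ∫ v in (a k)..(a (k + 1)), ψ v := intervalIntegral.integral_nonneg (ha2 k).le fun v _ => hψ0 v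
      positivity
    have h6 : volume.real (Ioc (a k) (a (k + 1)) ∩ V) ≤ ϑ / H := by
      refine le_trans ?_ (hd (a k))
      refine measureReal_mono (fun v hv => ⟨hv.2, hv.1.1.le, ?_⟩) ?_
      · rw [← ha1]
        exact hv.1.2
      · exact (lt_of_le_of_lt (measure_mono inter_subset_right) (by rw [Real.volume_Icc]; exact ENNReal.ofReal_lt_top)).ne
    calc ∫ v in Ioc (a k) (a (k + 1)) ∩ V, φ v ≤ ‖∫ v in Ioc (a k) (a (k + 1)) ∩ V, φ v‖ := Real.le_norm_self _
      _ ≤ M * volume.real (Ioc (a k) (a (k + 1)) ∩ V) := h5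
      _ ≤ M * (ϑ / H) := mul_le_mul_of_nonneg_left h6 hM0
      _ = _ := by
        rw [hM]
        field_simp
  rw [e1, e2]
  refine (Finset.sum_le_sum e3).trans (le_of_eq ?_)
  rw [← Finset.mul_sum, Finset.sum_add_distrib, ← Finset.mul_sum, intervalIntegral.sum_integral_adjacent_intervals fun k _ => hφc.intervalIntegrable _ _,
    intervalIntegral.sum_integral_adjacent_intervals fun k _ => hψ.intervalIntegrable _ _, ha0, haN]

theorem NEA_proof : NEA_stmt := by
  refine ⟨700, by norm_num, ?_⟩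
  intro H ϑ lam V D r b hH h1 h4 hϑ hV hV4 hdens hD
  have hH0 : (0 : ℝ) < H := by exact_mod_cast (by omega : 0 < H)
  set f : ℝ → ℂ := fun v => ∑ d ∈ D, b d * ee (lam * ((d : ℝ) - r) * v) with hf
  set g : ℝ → ℂ := fun v => ∑ d ∈ D, (b d * ((lam * ((d : ℝ) - r) : ℝ) * Complex.I)) * ee (lam * ((d : ℝ) - r) * v) with hg
  have hfg : ∀ v, HasDerivAt f (g v) v := by
    intro v
    have h := HasDerivAt.fun_sum (u := D) (A := fun (d : ℤ) (v : ℝ) => b d * ee (lam * ((d : ℝ) - r) * v))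
      (A' := fun d => (b d * ((lam * ((d : ℝ) - r) : ℝ) * Complex.I)) * ee (lam * ((d : ℝ) - r) * v)) (x := v) (fun d _ => by
        have h2 := (NEA_deriv (lam * ((d : ℝ) - r)) v).const_mul (b d)
        rw [mul_assoc]
        exact h2)
    exact h
  have hfc : Continuous f := continuous_iff_continuousAt.2 fun v => (hfg v).continuousAt
  have hgc : Continuous g := by
    rw [hg]
    exact continuous_finset_sum _ fun d _ => continuous_const.mul (NEA_cont.comp (by fun_prop))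
  have hnorm : ∀ v : ℝ, ‖∑ d ∈ D, b d * ee (lam * d * v)‖ = ‖f v‖ := by
    intro v
    have h : ∑ d ∈ D, b d * ee (lam * d * v) = ee (lam * r * v) * f v := by
      rw [hf]
      simp only
      rw [Finset.mul_sum]
      refine Finset.sum_congr rfl fun d _ => ?_
      have h2 : ee (lam * d * v) = ee (lam * r * v) * ee (lam * ((d : ℝ) - r) * v) := by
        rw [← NEA_add]
        congr 1
        ring
      rw [h2]
      ring
    rw [h, norm_mul, NEA_norm, one_mul]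
  simp_rw [hnorm]
  have key := NEA_main H hH ϑ hϑ V hV hV4 hdens (fun v => ‖f v‖ ^ 2) (fun v => 2 * inner ℝ (f v) (g v)) (fun v => H * ‖f v‖ ^ 2 + 1 / H * ‖g v‖ ^ 2)
    (fun v => (hfg v).norm_sq) (continuous_const.mul (hfc.inner hgc)) (by fun_prop) (fun v => ?_) (fun v => sq_nonneg _)
  · refine key.trans ?_
    have k1 : ∫ v in (-4 : ℝ)..4, ‖f v‖ ^ 2 ≤ 38 * ∑ d ∈ D, ‖b d‖ ^ 2 := NEA_L2 lam h1 h4 D r b
    have k2 : ∫ v in (-4 : ℝ)..4, ‖g v‖ ^ 2 ≤ 38 * ∑ d ∈ D, ‖b d * ((lam * ((d : ℝ) - r) : ℝ) * Complex.I)‖ ^ 2 := NEA_L2 lam h1 h4 D r _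
    have k3 : ∑ d ∈ D, ‖b d * ((lam * ((d : ℝ) - r) : ℝ) * Complex.I)‖ ^ 2 ≤ 16 * (H : ℝ) ^ 2 * ∑ d ∈ D, ‖b d‖ ^ 2 := by
      rw [Finset.mul_sum]
      refine Finset.sum_le_sum fun d hd => ?_
      rw [norm_mul, norm_mul, Complex.norm_I, mul_one, Complex.norm_real, Real.norm_eq_abs, mul_pow, sq_abs]
      obtain ⟨q1, q2⟩ := hD d hd
      have q3 : (r : ℝ) ≤ d := by exact_mod_cast q1
      have q4 : (d : ℝ) ≤ r + H := by exact_mod_cast q2.le
      have q5 : 0 ≤ (d : ℝ) - r := by linarith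
      have q6 : (d : ℝ) - r ≤ H := by linarith
      have q7 : (lam * ((d : ℝ) - r)) ^ 2 ≤ 16 * (H : ℝ) ^ 2 := by
        have : lam * ((d : ℝ) - r) ≤ 4 * H := by nlinarith
        have h0 : 0 ≤ lam * ((d : ℝ) - r) := by positivity
        nlinarith
      calc ‖b d‖ ^ 2 * (lam * ((d : ℝ) - r)) ^ 2 ≤ ‖b d‖ ^ 2 * (16 * (H : ℝ) ^ 2) := mul_le_mul_of_nonneg_left q7 (sq_nonneg _)
        _ = _ := by ring
    have k4 : ∫ v in (-4 : ℝ)..4, ((H : ℝ) * ‖f v‖ ^ 2 + 1 / H * ‖g v‖ ^ 2) = H * (∫ v in (-4 : ℝ)..4, ‖f v‖ ^ 2) + 1 / H * ∫ v in (-4 : ℝ)..4, ‖g v‖ ^ 2 := by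
      rw [intervalIntegral.integral_add, intervalIntegral.integral_const_mul, intervalIntegral.integral_const_mul]
      · exact (by fun_prop : Continuous fun v => (H : ℝ) * ‖f v‖ ^ 2).intervalIntegrable _ _
      · exact (by fun_prop : Continuous fun v => 1 / (H : ℝ) * ‖g v‖ ^ 2).intervalIntegrable _ _
    rw [k4]
    set S : ℝ := ∑ d ∈ D, ‖b d‖ ^ 2 with hS
    have hS0 : 0 ≤ S := Finset.sum_nonneg fun d _ => sq_nonneg _
    have k5 : ∫ v in (-4 : ℝ)..4, ‖g v‖ ^ 2 ≤ 38 * (16 * (H : ℝ) ^ 2 * S) := k2.trans (mul_le_mul_of_nonneg_left k3 (by norm_num))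
    have k6 : (∫ v in (-4 : ℝ)..4, ‖f v‖ ^ 2) + 1 / H * (H * (∫ v in (-4 : ℝ)..4, ‖f v‖ ^ 2) + 1 / H * ∫ v in (-4 : ℝ)..4, ‖g v‖ ^ 2) ≤ 700 * S := by
      have k7 : 1 / (H : ℝ) * (H * (∫ v in (-4 : ℝ)..4, ‖f v‖ ^ 2) + 1 / H * ∫ v in (-4 : ℝ)..4, ‖g v‖ ^ 2) =
          (∫ v in (-4 : ℝ)..4, ‖f v‖ ^ 2) + 1 / (H : ℝ) ^ 2 * ∫ v in (-4 : ℝ)..4, ‖g v‖ ^ 2 := by
        field_simp
      have k8 : 1 / (H : ℝ) ^ 2 * ∫ v in (-4 : ℝ)..4, ‖g v‖ ^ 2 ≤ 608 * S := by
        calc 1 / (H : ℝ) ^ 2 * ∫ v in (-4 : ℝ)..4, ‖g v‖ ^ 2 ≤ 1 / (H : ℝ) ^ 2 * (38 * (16 * (H : ℝ) ^ 2 * S)) :=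
              mul_le_mul_of_nonneg_left k5 (by positivity)
          _ = 608 * S := by field_simp; ring
      rw [k7]
      linarith
    calc ϑ * _ ≤ ϑ * (700 * S) := mul_le_mul_of_nonneg_left k6 hϑ
      _ = _ := by ring
  · have i1 : |inner ℝ (f v) (g v)| ≤ ‖f v‖ * ‖g v‖ := abs_real_inner_le_norm _ _
    have i2 : 2 * (‖f v‖ * ‖g v‖) ≤ H * ‖f v‖ ^ 2 + 1 / H * ‖g v‖ ^ 2 := by
      have h0 : 0 ≤ (H * ‖f v‖ - ‖g v‖) ^ 2 / H := by positivity
      have h5 : (H * ‖f v‖ - ‖g v‖) ^ 2 / H = H * ‖f v‖ ^ 2 + 1 / H * ‖g v‖ ^ 2 - 2 * (‖f v‖ * ‖g v‖) := by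
        field_simp
        ring
      linarith
    rw [abs_mul, abs_two]
    linarith

end

end Pool.Agent.LP
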